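import Pool.Agent.LeadSN.Stm

/-! # Project SN, piece A1 -/

set_option autoImplicit false

open scoped BigOperators
open Pool.Agent.Y282.RB Pool.Agent.LeadSN

namespace Pool.Agent.W2helper59.SN

theorem s_a1 : LeadSN.S_A1 := by
  intro hCS hWT n p γ hn hp hL hx
  set σ : ℝ := 1 / p with hσd
  have hp0 : 0 < p := by linarith
  have hσ0 : 0 < σ := by positivity
  have hσ1 : σ ≤ 1 / 100 := by
    rw [hσd]
    exact one_div_le_one_div_of_le (by norm_num) hp
  have hpσ : p * σ = 1 := by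
    rw [hσd]
    field_simp
  obtain ⟨hk0, hc0, hkc⟩ := hWT σ hσ0 (by linarith)
  set t := Real.sqrt (TT n γ) with htd
  have ht : 0 ≤ t := Real.sqrt_nonneg _
  set x := γ 0 with hxd
  have hx0 : 0 ≤ x := by linarith
  have hk : ∀ j : ℕ, 0 < kk σ j := by
    intro j
    have hj : (0 : ℝ) ≤ j := Nat.cast_nonneg j
    unfold kk
    apply div_pos (by linarith)
    apply mul_pos <;> linarith
  have hKK : 0 < KK σ n := by
    unfold KK
    apply Finset.sum_pos (fun j _ => hk j)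
    exact Finset.nonempty_range_iff.mpr (by omega)
  have hS : ∑ j ∈ Finset.range n, kk σ j * (yy σ γ j) ^ 2 = ∑ j ∈ Finset.range n, kk σ j := by
    unfold Lam at hL
    rw [div_eq_one_iff_eq hKK.ne'] at hL
    exact hL
  have hS2 : ∑ j ∈ Finset.range n, kk σ j * (1 - (yy σ γ j) ^ 2) = 0 := by
    have : ∀ j ∈ Finset.range n, kk σ j * (1 - (yy σ γ j) ^ 2) =
        kk σ j - kk σ j * (yy σ γ j) ^ 2 := fun j _ => by ring
    rw [Finset.sum_congr rfl this, Finset.sum_sub_distrib, hS, sub_self]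
  rw [Finset.range_eq_Ico, Finset.sum_eq_sum_Ico_succ_bot (by omega)] at hS2
  -- the bound on y_j ^ 2
  have hy : ∀ j, j < n → x ^ 2 - 2 * cc σ j * (x * t) ≤ (yy σ γ j) ^ 2 := by
    intro j hj
    have h1 := hCS n σ γ j hj hσ0.le (by linarith)
    have h2 : x - yy σ γ j ≤ cc σ j * t := (le_abs_self _).trans h1
    have h3 : x * (x - yy σ γ j) ≤ x * (cc σ j * t) := mul_le_mul_of_nonneg_left h2 hx0
    nlinarith [sq_nonneg (x - yy σ γ j)]
  have h0 := hy 0 (by omega)
  have h1 : ∑ j ∈ Finset.Ico (0 + 1) n, kk σ j * (1 - (yy σ γ j) ^ 2) ≤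
      ∑ j ∈ Finset.Ico 1 n, min (kk σ j) (4 * (x * t)) := by
    rw [zero_add]
    apply Finset.sum_le_sum
    intro j hj
    have hj1 := (Finset.mem_Ico.mp hj).1
    have hjn := (Finset.mem_Ico.mp hj).2
    obtain ⟨_, hc, hkc2, _, _⟩ := hkc j hj1
    apply le_min
    · have : 1 - (yy σ γ j) ^ 2 ≤ 1 := by
        have := sq_nonneg (yy σ γ j)
        linarith
      calc kk σ j * (1 - (yy σ γ j) ^ 2) ≤ kk σ j * 1 :=
            mul_le_mul_of_nonneg_left this (hk j).le
        _ = kk σ j := mul_one _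
    · have h2 := hy j hjn
      have h3 : 1 - (yy σ γ j) ^ 2 ≤ 2 * cc σ j * (x * t) := by nlinarith
      calc kk σ j * (1 - (yy σ γ j) ^ 2) ≤ kk σ j * (2 * cc σ j * (x * t)) :=
            mul_le_mul_of_nonneg_left h3 (hk j).le
        _ = 2 * (kk σ j * cc σ j) * (x * t) := by ring
        _ ≤ 2 * 2 * (x * t) := by
            apply mul_le_mul_of_nonneg_right _ (by positivity)
            linarith
        _ = 4 * (x * t) := by ring
  rw [hc0] at h0
  have h2 : kk σ 0 * ((yy σ γ 0) ^ 2 - 1) ≤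
      ∑ j ∈ Finset.Ico 1 n, min (kk σ j) (4 * (x * t)) := by
    have : kk σ 0 * (1 - (yy σ γ 0) ^ 2) = - (kk σ 0 * ((yy σ γ 0) ^ 2 - 1)) := by ring
    linarith
  have h3 : kk σ 0 * (x ^ 2 - 1) - kk σ 0 * (2 * σ * (x * t)) ≤
      ∑ j ∈ Finset.Ico 1 n, min (kk σ j) (4 * (x * t)) := by
    refine le_trans ?_ h2
    have := mul_le_mul_of_nonneg_left h0 (hk 0).le
    nlinarith
  have h4 : kk σ 0 * (2 * σ * (x * t)) = 2 / (1 - σ) * (x * t) := by
    rw [hk0]
    have : (1 - σ) ≠ 0 := by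
      have : 0 < 1 - σ := by linarith
      exact this.ne'
    field_simp
  have h5 : p ≤ kk σ 0 := by
    rw [hk0]
    have h6 : 0 < σ * (1 - σ) := mul_pos hσ0 (by linarith)
    rw [le_div_iff₀ h6]
    have : p * (σ * (1 - σ)) = (p * σ) * (1 - σ) := by ring
    rw [this, hpσ]
    linarith
  have h6 : p * (x ^ 2 - 1) ≤ kk σ 0 * (x ^ 2 - 1) := by
    apply mul_le_mul_of_nonneg_right h5
    nlinarith
  linarith

end Pool.Agent.W2helper59.SN
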