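import Pool.Agent.LeadSN.Stm

/-! # Project SN, piece HS (harmonic sums) -/

set_option autoImplicit false

open scoped BigOperators

namespace Pool.Agent.W2helper59.SN

theorem hs_aux (J : ℕ) (hJ : 1 ≤ J) : ∀ n : ℕ, J ≤ n →
    ∑ j ∈ Finset.Ico J n, (1 / (j : ℝ) + 1 / ((j : ℝ) + 1)) ≤
      1 / (J : ℝ) - 1 / (n : ℝ) + 2 * (Real.log n - Real.log J) := by
  intro n hn
  induction n, hn using Nat.le_induction with
  | base => simp
  | succ n hn ih =>
    rw [Finset.sum_Ico_succ_top hn]
    have hn0 : (0 : ℝ) < n := by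
      have : (1 : ℝ) ≤ n := by exact_mod_cast le_trans hJ hn
      linarith
    have h1 : Real.log ((n : ℝ) / ((n : ℝ) + 1)) ≤ (n : ℝ) / ((n : ℝ) + 1) - 1 :=
      Real.log_le_sub_one_of_pos (by positivity)
    rw [Real.log_div (by positivity) (by positivity)] at h1
    have h2 : (n : ℝ) / ((n : ℝ) + 1) - 1 = - (1 / ((n : ℝ) + 1)) := by
      field_simp
      ring
    rw [h2] at h1
    push_cast
    linarith

theorem p_hs : LeadSN.P_HS := by
  intro n k hn hk
  have hn0 : (1 : ℝ) ≤ n := by exact_mod_cast hn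
  refine ⟨?_, ?_⟩
  · intro u hu hu1 hnu
    set J := ⌈1 / u⌉₊ with hJd
    have hJ0 : 0 < J := Nat.ceil_pos.mpr (by positivity)
    have hJ1 : 1 ≤ J := hJ0
    have hJn : J ≤ n := by
      apply Nat.ceil_le.mpr
      rw [div_le_iff₀ hu]
      exact hnu
    have hJlt : (J : ℝ) < 1 / u + 1 := Nat.ceil_lt_add_one (by positivity)
    have hJge : 1 / u ≤ (J : ℝ) := Nat.le_ceil _
    have hJr : (1 : ℝ) ≤ J := by exact_mod_cast hJ1
    rw [← Finset.sum_Ico_consecutive _ hJ1 hJn]
    have h1 : ∑ j ∈ Finset.Ico 1 J, min (k j) (4 * u) ≤ 4 := by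
      calc ∑ j ∈ Finset.Ico 1 J, min (k j) (4 * u) ≤ ∑ j ∈ Finset.Ico 1 J, (4 * u) :=
            Finset.sum_le_sum (fun j _ => min_le_right _ _)
        _ = ((J : ℝ) - 1) * (4 * u) := by
            rw [Finset.sum_const, Nat.card_Ico, nsmul_eq_mul, Nat.cast_sub hJ1, Nat.cast_one]
        _ ≤ (1 / u) * (4 * u) := by
            apply mul_le_mul_of_nonneg_right _ (by positivity)
            linarith
        _ = 4 := by field_simp
    have h2 : ∑ j ∈ Finset.Ico J n, min (k j) (4 * u) ≤ 1 + 2 * Real.log (n * u) := by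
      have h3 : ∑ j ∈ Finset.Ico J n, min (k j) (4 * u) ≤
          ∑ j ∈ Finset.Ico J n, (1 / (j : ℝ) + 1 / ((j : ℝ) + 1)) := by
        apply Finset.sum_le_sum
        intro j hj
        exact (min_le_left _ _).trans (hk j (hJ1.trans (Finset.mem_Ico.mp hj).1))
      have h4 := hs_aux J hJ1 n hJn
      have h5 : 1 / (J : ℝ) ≤ 1 := by
        rw [div_le_one (by positivity)]
        exact hJr
      have h6 : 0 < 1 / (n : ℝ) := by positivity
      have h7 : - Real.log J ≤ Real.log u := by
        have : Real.log (1 / u) ≤ Real.log J := Real.log_le_log (by positivity) hJge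
        rw [one_div, Real.log_inv] at this
        linarith
      rw [Real.log_mul (by positivity) (by positivity)]
      linarith
    linarith
  · have h3 : ∑ j ∈ Finset.Ico 1 n, k j ≤
        ∑ j ∈ Finset.Ico 1 n, (1 / (j : ℝ) + 1 / ((j : ℝ) + 1)) := by
      apply Finset.sum_le_sum
      intro j hj
      exact hk j (Finset.mem_Ico.mp hj).1
    have h4 := hs_aux 1 le_rfl n hn
    have h6 : 0 < 1 / (n : ℝ) := by positivity
    simp only [Nat.cast_one, Real.log_one, sub_zero, div_one] at h4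
    linarith

end Pool.Agent.W2helper59.SN
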