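import Pool.Agent.LeadSN.Stm

/-! # Project SN, piece ID (telescoping identity and Cauchy-Schwarz) -/

set_option autoImplicit false

open scoped BigOperators
open Pool.Agent.Y282.RB Pool.Agent.LeadSN

namespace Pool.Agent.W2helper59.SN

theorem th_pos {σ : ℝ} (h1 : σ < 1 / 2) (j : ℕ) : 0 < th σ j := by
  have hj : (0 : ℝ) ≤ j := Nat.cast_nonneg j
  unfold th
  apply div_pos <;> linarith

theorem ww_pos {σ : ℝ} (h0 : 0 < σ) (h1 : σ < 1 / 2) (n : ℕ) : 0 < WW σ n := by
  unfold WW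
  apply Finset.prod_pos
  intro j _
  have hj : (0 : ℝ) ≤ j := Nat.cast_nonneg j
  apply div_pos <;> linarith

theorem ww_succ (σ : ℝ) (n : ℕ) :
    WW σ (n + 1) = WW σ n * (((n : ℝ) + σ) / ((n : ℝ) + 1 - σ)) := by
  unfold WW
  rw [Finset.prod_range_succ]

theorem tele {σ : ℝ} (h0 : 0 < σ) (h1 : σ < 1 / 2) (γ : ℕ → ℝ) (n : ℕ) :
    |γ 0| ≤ ∑ j ∈ Finset.range n, WW σ j * (|yy σ γ j| / th σ j) + WW σ n * |γ n| := by
  induction n with
  | zero => simp [WW]
  | succ n ih =>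
    rw [Finset.sum_range_succ, ww_succ]
    have hj : (0 : ℝ) ≤ n := Nat.cast_nonneg n
    have hth := th_pos h1 n
    have hW := ww_pos h0 h1 n
    have h2 : (0 : ℝ) < (n : ℝ) + 1 - σ := by linarith
    have h3 : (0 : ℝ) < 2 * (n : ℝ) + 1 := by linarith
    have h4 : (0 : ℝ) < (n : ℝ) + σ := by linarith
    have key : γ n = yy σ γ n / th σ n - (((n : ℝ) + σ) / ((n : ℝ) + 1 - σ)) * γ (n + 1) := by
      have : (1 - th σ n) / th σ n = ((n : ℝ) + σ) / ((n : ℝ) + 1 - σ) := by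
        unfold th
        field_simp
        ring
      rw [← this]
      unfold yy
      field_simp
      ring
    have h5 : |γ n| ≤ |yy σ γ n| / th σ n + (((n : ℝ) + σ) / ((n : ℝ) + 1 - σ)) * |γ (n + 1)| := by
      calc |γ n| = |yy σ γ n / th σ n - (((n : ℝ) + σ) / ((n : ℝ) + 1 - σ)) * γ (n + 1)| := by
            rw [← key]
        _ ≤ |yy σ γ n / th σ n| + |(((n : ℝ) + σ) / ((n : ℝ) + 1 - σ)) * γ (n + 1)| := abs_sub _ _
        _ = _ := by
            rw [abs_div, abs_mul, abs_of_pos hth, abs_of_pos (div_pos h4 h2)]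
    have h6 := mul_le_mul_of_nonneg_left h5 hW.le
    rw [mul_add] at h6
    rw [mul_assoc]
    linarith

theorem p_id : LeadSN.P_ID := by
  intro n σ γ hn h0 h1 hL
  have hk : ∀ j : ℕ, 0 < kk σ j := by
    intro j
    have hj : (0 : ℝ) ≤ j := Nat.cast_nonneg j
    unfold kk
    apply div_pos (by linarith)
    apply mul_pos <;> linarith
  have hKK : 0 < KK σ n := by
    unfold KK
    apply Finset.sum_pos (fun j _ => hk j)
    exact Finset.nonempty_range_iff.mpr (by omega)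
  have hS : ∑ j ∈ Finset.range n, kk σ j * (yy σ γ j) ^ 2 = KK σ n := by
    unfold Lam at hL
    rw [div_eq_one_iff_eq hKK.ne'] at hL
    exact hL
  refine (tele h0 h1 γ n).trans ?_
  apply add_le_add _ le_rfl
  have hcs := Real.sum_mul_le_sqrt_mul_sqrt (Finset.range n)
    (fun j => Real.sqrt (kk σ j) * |yy σ γ j|) (fun j => WW σ j / (th σ j * Real.sqrt (kk σ j)))
  have e1 : ∑ j ∈ Finset.range n, WW σ j * (|yy σ γ j| / th σ j) =
      ∑ j ∈ Finset.range n, Real.sqrt (kk σ j) * |yy σ γ j| *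
        (WW σ j / (th σ j * Real.sqrt (kk σ j))) := by
    apply Finset.sum_congr rfl
    intro j _
    have hth := th_pos h1 j
    have hs : 0 < Real.sqrt (kk σ j) := Real.sqrt_pos.mpr (hk j)
    field_simp
  have e2 : ∑ j ∈ Finset.range n, (Real.sqrt (kk σ j) * |yy σ γ j|) ^ 2 = KK σ n := by
    rw [← hS]
    apply Finset.sum_congr rfl
    intro j _
    rw [mul_pow, Real.sq_sqrt (hk j).le, sq_abs]
  have e3 : ∑ j ∈ Finset.range n, (WW σ j / (th σ j * Real.sqrt (kk σ j))) ^ 2 =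
      ∑ j ∈ Finset.range n, (2 * (j : ℝ) + 1) * WW σ j * WW σ (j + 1) := by
    apply Finset.sum_congr rfl
    intro j _
    have hj : (0 : ℝ) ≤ j := Nat.cast_nonneg j
    have h2 : (0 : ℝ) < (j : ℝ) + 1 - σ := by linarith
    have h3 : (0 : ℝ) < 2 * (j : ℝ) + 1 := by linarith
    have h4 : (0 : ℝ) < (j : ℝ) + σ := by linarith
    rw [div_pow, mul_pow, Real.sq_sqrt (hk j).le, ww_succ]
    unfold th kk
    field_simp
  rw [e1]
  refine hcs.trans ?_
  rw [e2, e3, ← Real.sqrt_mul hKK.le]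

end Pool.Agent.W2helper59.SN
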